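import Mathlib
import Pool.Agent.Hhelper69.AutXC.Main

/-!
# Linear descriptions of automorphism polytopes of graphs of maximum degree three

The definitions used in the statement are in `Pool.Agent.Hhelper69.AutXC.Defs`.
-/

namespace Pool.Agent.Results.MP_128e7d_lc.PolytopeSize

open Pool.Agent.Hhelper69.AutXC Pool.Agent.Lib.ExtComplexity

theorem hasEF_reindex {ι ι' : Type} [Fintype ι] [Fintype ι'] (f : ι ≃ ι') {P : Set (ι' → ℝ)}
    {r : ℕ} (h : HasEF P r) : HasEF {x : ι → ℝ | x ∘ f.symm ∈ P} r := by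
  obtain ⟨k, E, F, g, rfl⟩ := h
  refine ⟨k, fun i j => E i (f j), F, g, ?_⟩
  ext x
  simp only [Set.mem_ofPred_eq]
  refine exists_congr fun z => and_congr_right fun _ => ?_
  have : E.mulVec (x ∘ f.symm) = Matrix.mulVec (fun i j => E i (f j)) x := by
    funext i
    simp only [Matrix.mulVec, dotProduct, Function.comp_apply]
    rw [← Equiv.sum_comp f]
    simp
  rw [this]

theorem autPolytope_comap {V W : Type} [DecidableEq V] [DecidableEq W] (G : SimpleGraph V)
    (e : V ≃ W) : autPolytope G = {x : V × V → ℝ | x ∘ (Equiv.prodCongr e e).symm ∈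
      autPolytope (G.comap e.symm)} := by
  let L := LinearEquiv.funCongrLeft ℝ ℝ (Equiv.prodCongr e e)
  have h1 : autPolytope G = L '' autPolytope (G.comap e.symm) := by
    unfold autPolytope
    have : L '' convexHull ℝ {x | ∃ φ : (G.comap e.symm) ≃g (G.comap e.symm),
        x = fun q => if φ q.1 = q.2 then (1 : ℝ) else 0} =
        convexHull ℝ (L '' {x | ∃ φ : (G.comap e.symm) ≃g (G.comap e.symm),
        x = fun q => if φ q.1 = q.2 then (1 : ℝ) else 0}) :=
      L.toLinearMap.image_convexHull _
    rw [this]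
    congr 1
    ext x
    constructor
    · rintro ⟨φ, rfl⟩
      let ψ := ((SimpleGraph.Iso.comap e.symm G).trans φ).trans (SimpleGraph.Iso.comap e.symm G).symm
      refine ⟨_, ⟨ψ, rfl⟩, ?_⟩
      funext q
      show (if ψ (e q.1) = e q.2 then (1 : ℝ) else 0) = _
      have : ψ (e q.1) = e (φ q.1) := by
        simp [ψ, SimpleGraph.Iso.comap]
      simp only [this, e.apply_eq_iff_eq]
    · rintro ⟨_, ⟨ψ, rfl⟩, rfl⟩
      let φ := ((SimpleGraph.Iso.comap e.symm G).symm.trans ψ).trans (SimpleGraph.Iso.comap e.symm G)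
      refine ⟨φ, ?_⟩
      funext q
      show (if ψ (e q.1) = e q.2 then (1 : ℝ) else 0) = _
      have : φ q.1 = e.symm (ψ (e q.1)) := by
        simp [φ, SimpleGraph.Iso.comap]
      simp only [this, Equiv.symm_apply_eq]
  rw [h1]
  ext x
  simp only [Set.mem_image, Set.mem_ofPred_eq]
  constructor
  · rintro ⟨y, hy, rfl⟩
    convert hy using 1
    funext q
    obtain ⟨q1, q2⟩ := q
    simp [L, LinearEquiv.funCongrLeft]
  · intro hx
    refine ⟨_, hx, ?_⟩
    funext q
    obtain ⟨q1, q2⟩ := q
    simp [L, LinearEquiv.funCongrLeft]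

/-- **Main theorem.** For every `n` there is a graph on `n` vertices, of maximum degree at most
three, such that every description of its automorphism polytope as a projection of the solution set
of a system of `r` linear inequalities and arbitrarily many linear equations satisfies
`r ≥ (3/2) ^ ⌊√⌊n/8⌋⌋ - 1`. -/
theorem result (n : ℕ) : ∃ G : SimpleGraph (Fin n), (∀ v, (G.neighborSet v).ncard ≤ 3) ∧
    ∀ r : ℕ, HasFormulation (autPolytope G) r → (3 / 2 : ℝ) ^ Nat.sqrt (n / 8) ≤ r + 1 := by
  classical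
  set m := Nat.sqrt (n / 8) with hm
  have h1 : m * m ≤ n / 8 := Nat.sqrt_le (n / 8)
  have h2 : 8 * (m * m) ≤ n := by omega
  have hcard : Fintype.card (Vt m (n - 8 * (m * m))) = n := by
    have : Fintype.card (Vt m (n - 8 * (m * m))) =
        m * (m * 2) + (m * (m * 2) + (m * (m * (2 * 2)) + (n - 8 * (m * m)))) := by
      simp [Vt, Fintype.card_sum, Fintype.card_prod]
    rw [this]
    have h3 : m * (m * 2) = 2 * (m * m) := by ring
    have h4 : m * (m * (2 * 2)) = 4 * (m * m) := by ring
    omega
  let e : Vt m (n - 8 * (m * m)) ≃ Fin n := Fintype.equivFinOfCardEq hcard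
  refine ⟨(Gr m (n - 8 * (m * m))).comap e.symm, fun v => ?_, fun r hr => ?_⟩
  · have h3 : ((Gr m (n - 8 * (m * m))).comap e.symm).neighborSet v ⊆
        e '' ↑(nb (e.symm v)) := by
      intro w hw
      rw [SimpleGraph.mem_neighborSet, SimpleGraph.comap_adj] at hw
      exact ⟨e.symm w, mem_nb hw, by simp⟩
    refine (Set.ncard_le_ncard h3 (Set.toFinite _)).trans ?_
    refine (Set.ncard_image_le (Set.toFinite _)).trans ?_
    rw [Set.ncard_coe_finset]
    exact nb_card _
  · obtain ⟨l, k, A, B, c, E, F, g, hP⟩ := hr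
    have h4 := hasEF_reindex (Equiv.prodCongr e e) (HasEF.of_general A B c E F g hP)
    rw [← autPolytope_comap] at h4
    exact lower m _ r h4

end Pool.Agent.Results.MP_128e7d_lc.PolytopeSize
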